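import Mathlib

/-!
# MP_30a809_co, Q2: the row `k = 1`

`e_e(n; 1, l) = ⌈(n - 1)(l - 1)/2⌉` for all `2 ≤ l < n`.
-/

open Finset

namespace Pool.Agent.Results.MP_30a809_co.RowOne

/-- crossing condition -/
def cr (X : Set ℕ) (q : ℕ × ℕ) : Prop := ¬ (q.1 ∈ X ↔ q.2 ∈ X)

open Classical in
noncomputable def d (E : Finset (ℕ × ℕ)) (X : Set ℕ) : ℕ := (E.filter (fun q => cr X q)).card

open Classical in
noncomputable def nt (p : ℕ → ℕ) (E : Finset (ℕ × ℕ)) : ℕ := (E.filter (fun q => q.1 ≠ p q.2)).card

lemma d_mono {E E' : Finset (ℕ × ℕ)} (h : E ⊆ E') (X : Set ℕ) : d E X ≤ d E' X := by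
  classical
  exact Finset.card_le_card (Finset.filter_subset_filter _ h)

lemma d_compl (E : Finset (ℕ × ℕ)) (X : Set ℕ) : d E Xᶜ = d E X := by
  classical
  unfold d
  congr 1
  apply Finset.filter_congr
  intro q _
  unfold cr
  simp only [Set.mem_compl_iff, not_iff_not]

/-- neighbours of the newest vertex -/
noncomputable def N (E : Finset (ℕ × ℕ)) (v : ℕ) : Finset ℕ :=
  open Classical in (E.filter (fun q => q.2 = v)).image Prod.fst

lemma mem_N {E : Finset (ℕ × ℕ)} {v x : ℕ} : x ∈ N E v ↔ (x, v) ∈ E := by
  classical
  unfold N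
  simp only [Finset.mem_image, Finset.mem_filter, Prod.exists, exists_and_right, exists_eq_right]

/-- one pinch does not decrease cuts -/
lemma d_pinch {E : Finset (ℕ × ℕ)} {x y v : ℕ} (hyx : (y, x) ∈ E)
    (hxv : (x, v) ∉ E) (hyv : (y, v) ∉ E) (_hxy : x ≠ y) (X : Set ℕ) :
    d E X ≤ d (insert (y, v) (insert (x, v) (E.erase (y, x)))) X := by
  classical
  unfold d
  by_cases hc : cr X (y, x)
  · -- the erased edge crosses
    have h1 : ((E.filter (fun q => cr X q)).erase (y, x)).card + 1
        = (E.filter (fun q => cr X q)).card := by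
      apply Finset.card_erase_add_one
      simp [hyx, hc]
    rw [← h1]
    by_cases hv : cr X (x, v)
    · have h2 : insert (x, v) ((E.filter (fun q => cr X q)).erase (y, x)) ⊆
          (insert (y, v) (insert (x, v) (E.erase (y, x)))).filter (fun q => cr X q) := by
        intro q hq
        rw [Finset.mem_insert] at hq
        rcases hq with rfl | hq
        · simp [hv]
        · rw [Finset.mem_erase, Finset.mem_filter] at hq
          simp [hq.2.2, hq.1, hq.2.1]
      have h3 := Finset.card_le_card h2
      rw [Finset.card_insert_of_notMem] at h3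
      · exact h3
      · simp [hxv]
    · have hv2 : cr X (y, v) := by
        unfold cr at *
        simp only at *
        tauto
      have h2 : insert (y, v) ((E.filter (fun q => cr X q)).erase (y, x)) ⊆
          (insert (y, v) (insert (x, v) (E.erase (y, x)))).filter (fun q => cr X q) := by
        intro q hq
        rw [Finset.mem_insert] at hq
        rcases hq with rfl | hq
        · simp [hv2]
        · rw [Finset.mem_erase, Finset.mem_filter] at hq
          simp [hq.2.2, hq.1, hq.2.1]
      have h3 := Finset.card_le_card h2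
      rw [Finset.card_insert_of_notMem] at h3
      · exact h3
      · simp [hyv]
  · apply Finset.card_le_card
    intro q hq
    rw [Finset.mem_filter] at hq
    have : q ≠ (y, x) := by
      rintro rfl; exact hc hq.2
    simp [hq.1, hq.2, this]

/-- State of the process when vertex `v` is being attached. -/
structure St (p : ℕ → ℕ) (l v : ℕ) (E : Finset (ℕ × ℕ)) : Prop where
  lt : ∀ q ∈ E, q.1 < q.2 ∧ q.2 ≤ v
  tree : ∀ j, 1 ≤ j → j < v → (p j, j) ∈ E
  deg : ∀ x, x < v → x ∉ N E v → l ≤ d E {x}

lemma pinch_step {p : ℕ → ℕ} {l v : ℕ} {E : Finset (ℕ × ℕ)} (hE : St p l v E)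
    (hp : ∀ j, 1 ≤ j → j ≤ v → p j < j)
    (hN : (N E v).card + 2 ≤ l) (hv : l ≤ v) :
    ∃ E', St p l v E' ∧ (∀ X, d E X ≤ d E' X) ∧ nt p E' ≤ nt p E + 1 ∧
      N E v ⊆ N E' v ∧ (N E' v).card = (N E v).card + 2 := by
  classical
  -- the largest vertex outside N
  have hne : ((range v) \ N E v).Nonempty := by
    rw [← Finset.card_pos]
    have := Finset.le_card_sdiff (N E v) (range v)
    rw [Finset.card_range] at this
    omega
  set x := ((range v) \ N E v).max' hne with hx
  have hxm : x ∈ (range v) \ N E v := Finset.max'_mem _ _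
  have hmax : ∀ y, y < v → y ∉ N E v → y ≤ x := by
    intro y hy hyN
    apply Finset.le_max'
    simp [hy, hyN]
  rw [Finset.mem_sdiff, Finset.mem_range] at hxm
  obtain ⟨hxv, hxN⟩ := hxm
  have hdeg := hE.deg x hxv hxN
  -- find the edge
  obtain ⟨y, hyx, hyN, hyp⟩ : ∃ y, (y, x) ∈ E ∧ y ∉ N E v ∧ y ≠ p x := by
    by_contra hcon
    push Not at hcon
    have hle : d E {x} ≤ (insert (p x) (N E v)).card := by
      unfold d
      apply Finset.card_le_card_of_injOn (fun q => if q.1 = x then q.2 else q.1)
      · intro q hq
        rw [Finset.mem_coe, Finset.mem_filter] at hq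
        obtain ⟨hqE, hqc⟩ := hq
        obtain ⟨q1, q2⟩ := q
        have hlt := hE.lt _ hqE
        simp only at hlt ⊢
        unfold cr at hqc
        simp only [Set.mem_singleton_iff] at hqc
        by_cases h1 : q1 = x
        · subst h1
          simp only [if_true]
          have hq2v : q2 ≠ v := by
            intro h; subst h
            exact hxN (mem_N.2 hqE)
          have : q2 ∈ N E v := by
            by_contra hq2
            have := hmax q2 (by omega) hq2
            omega
          simp [this]
        · simp only [h1, if_false]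
          have h2 : q2 = x := by tauto
          subst h2
          rw [Finset.mem_coe, Finset.mem_insert]
          by_cases hq1 : q1 ∈ N E v
          · right; exact hq1
          · left; exact hcon q1 hqE hq1
      · intro q hq q' hq' heq
        rw [Finset.mem_coe, Finset.mem_filter] at hq hq'
        obtain ⟨hqE, hqc⟩ := hq
        obtain ⟨hqE', hqc'⟩ := hq'
        obtain ⟨q1, q2⟩ := q
        obtain ⟨q1', q2'⟩ := q'
        have hlt := hE.lt _ hqE
        have hlt' := hE.lt _ hqE'
        unfold cr at hqc hqc'
        simp only [Set.mem_singleton_iff] at hqc hqc' heq hlt hlt'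
        rw [Prod.mk.injEq]
        split_ifs at heq with h1 h2 h2
        · omega
        · omega
        · omega
        · omega
    have := Finset.card_insert_le (p x) (N E v)
    omega
  have hylt := hE.lt _ hyx
  simp only at hylt
  have hxv' : (x, v) ∉ E := fun h => hxN (mem_N.2 h)
  have hyv' : (y, v) ∉ E := fun h => hyN (mem_N.2 h)
  have hxy : x ≠ y := by omega
  refine ⟨insert (y, v) (insert (x, v) (E.erase (y, x))), ?_, ?_, ?_, ?_, ?_⟩
  · have hNs : ∀ z, z ∈ N E v → z ∈ N (insert (y, v) (insert (x, v) (E.erase (y, x)))) v := by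
      intro z hz
      rw [mem_N] at hz ⊢
      have : (z, v) ≠ (y, x) := by
        intro h; rw [Prod.mk.injEq] at h; omega
      simp [hz, this]
    constructor
    · intro q hq
      simp only [Finset.mem_insert, Finset.mem_erase] at hq
      rcases hq with rfl | rfl | ⟨_, hq⟩
      · simp only; omega
      · simp only; omega
      · exact hE.lt q hq
    · intro j hj1 hj2
      have h1 := hE.tree j hj1 hj2
      have : (p j, j) ≠ (y, x) := by
        intro h; rw [Prod.mk.injEq] at h
        obtain ⟨h2, h3⟩ := h
        subst h3
        exact hyp h2.symm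
      simp [h1, this]
    · intro z hz hzN
      have : z ∉ N E v := fun h => hzN (hNs z h)
      exact (hE.deg z hz this).trans (d_pinch hyx hxv' hyv' hxy _)
  · intro X
    exact d_pinch hyx hxv' hyv' hxy X
  · unfold nt
    have h1 : ((E.filter (fun q => q.1 ≠ p q.2)).erase (y, x)).card + 1
        = (E.filter (fun q => q.1 ≠ p q.2)).card := by
      apply Finset.card_erase_add_one
      simp [hyx, hyp]
    have h2 : ((insert (y, v) (insert (x, v) (E.erase (y, x)))).filter (fun q => q.1 ≠ p q.2)) ⊆
        insert (y, v) (insert (x, v) ((E.filter (fun q => q.1 ≠ p q.2)).erase (y, x))) := by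
      intro q hq
      simp only [Finset.mem_filter, Finset.mem_insert, Finset.mem_erase] at hq ⊢
      tauto
    have h3 := Finset.card_le_card h2
    have h4 := Finset.card_insert_le (y, v)
      (insert (x, v) ((E.filter (fun q => q.1 ≠ p q.2)).erase (y, x)))
    have h5 := Finset.card_insert_le (x, v) ((E.filter (fun q => q.1 ≠ p q.2)).erase (y, x))
    omega
  · intro z hz
    rw [mem_N] at hz ⊢
    have : (z, v) ≠ (y, x) := by
      intro h; rw [Prod.mk.injEq] at h; omega
    simp [hz, this]
  · have : N (insert (y, v) (insert (x, v) (E.erase (y, x)))) v = insert y (insert x (N E v)) := by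
      ext z
      simp only [mem_N, Finset.mem_insert, Finset.mem_erase, Prod.mk.injEq, and_true, ne_eq]
      constructor
      · rintro (h | h | h)
        · exact Or.inl h
        · exact Or.inr (Or.inl h)
        · exact Or.inr (Or.inr h.2)
      · rintro (h | h | h)
        · exact Or.inl h
        · exact Or.inr (Or.inl h)
        · refine Or.inr (Or.inr ⟨?_, h⟩)
          omega
    rw [this, Finset.card_insert_of_notMem, Finset.card_insert_of_notMem hxN]
    rw [Finset.mem_insert, not_or]
    exact ⟨hxy.symm, hyN⟩

lemma pinch_iter {p : ℕ → ℕ} {l v : ℕ} (hp : ∀ j, 1 ≤ j → j ≤ v → p j < j) (hv : l ≤ v) (t : ℕ) :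
    ∀ E : Finset (ℕ × ℕ), St p l v E → (N E v).card + 2 * t ≤ l →
    ∃ E', St p l v E' ∧ (∀ X, d E X ≤ d E' X) ∧ nt p E' ≤ nt p E + t ∧
      N E v ⊆ N E' v ∧ (N E' v).card = (N E v).card + 2 * t := by
  induction t with
  | zero => 
    intro E hE _
    exact ⟨E, hE, fun X => le_rfl, by simp, Finset.Subset.refl _, by simp⟩
  | succ t ih =>
    intro E hE hN
    obtain ⟨E1, h1, h2, h3, h4, h5⟩ := pinch_step hE hp (by omega) hv
    obtain ⟨E2, g1, g2, g3, g4, g5⟩ := ih E1 h1 (by omega)
    exact ⟨E2, g1, fun X => (h2 X).trans (g2 X), by omega, h4.trans g4, by omega⟩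

/-- Graph on `[0,m)`. -/
structure Good (p : ℕ → ℕ) (l m : ℕ) (E : Finset (ℕ × ℕ)) : Prop where
  lt : ∀ q ∈ E, q.1 < q.2 ∧ q.2 < m
  tree : ∀ j, 1 ≤ j → j < m → (p j, j) ∈ E
  cut : ∀ X : Set ℕ, (∃ a, a < m ∧ a ∈ X) → (∃ b, b < m ∧ b ∉ X) → l ≤ d E X

lemma Good.deg {p : ℕ → ℕ} {l m : ℕ} {E : Finset (ℕ × ℕ)} (h : Good p l m E) (hm : 2 ≤ m)
    {x : ℕ} (hx : x < m) : l ≤ d E {x} := by
  apply h.cut
  · exact ⟨x, hx, rfl⟩
  · by_cases h0 : x = 0
    · exact ⟨1, by omega, by simp; omega⟩
    · exact ⟨0, by omega, by simp; omega⟩

/-- degree into a lower set -/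
lemma card_N_le_d {E : Finset (ℕ × ℕ)} {v : ℕ} {X : Set ℕ} (hv : v ∈ X)
    (h : ∀ x ∈ N E v, x ∉ X) : (N E v).card ≤ d E X := by
  classical
  unfold d
  apply Finset.card_le_card_of_injOn (fun x => (x, v))
  · intro x hx
    rw [Finset.mem_coe] at hx
    rw [Finset.mem_coe, Finset.mem_filter]
    refine ⟨mem_N.1 hx, ?_⟩
    unfold cr
    simp only
    have := h x hx
    tauto
  · intro x _ y _ h
    simp only [Prod.mk.injEq, and_true] at h
    exact h

/-- one-vertex step -/
lemma one_step {p : ℕ → ℕ} {l m : ℕ} (hl : 2 ≤ l) (hp : ∀ j, 1 ≤ j → j ≤ m → p j < j) (hm : l + 1 ≤ m)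
    {E : Finset (ℕ × ℕ)} (hE : Good p l m E) :
    ∃ E', Good p l (m + 1) E' ∧ nt p E' ≤ nt p E + l / 2 := by
  classical
  -- initial state
  have hpm : p m < m := hp m (by omega) le_rfl
  have hNE : N E m = ∅ := by
    ext x
    simp only [mem_N, Finset.notMem_empty, iff_false]
    intro h
    have := (hE.lt _ h).2
    simp at this
  -- pick start set
  obtain ⟨E0, c0, hsub, hlt0, hN0, hnt0, hc0⟩ : ∃ (E0 : Finset (ℕ × ℕ)) (c0 : ℕ), E ⊆ E0 ∧
      (∀ q ∈ E0, q.1 < q.2 ∧ q.2 ≤ m) ∧ ((N E0 m).card = 1 + c0 ∧ p m ∈ N E0 m) ∧ 
      nt p E0 ≤ nt p E + c0 ∧ (1 + c0 + 2 * ((l - 1) / 2) = l) := by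
    rcases Nat.even_or_odd l with he | ho
    · -- even: extra edge
      obtain ⟨w, hw1, hw2⟩ : ∃ w, w < m ∧ w ≠ p m := by
        by_cases h0 : p m = 0
        · exact ⟨1, by omega, by omega⟩
        · exact ⟨0, by omega, by omega⟩
      refine ⟨insert (w, m) (insert (p m, m) E), 1, ?_, ?_, ?_, ?_, ?_⟩
      · intro q hq; simp [hq]
      · intro q hq
        simp only [Finset.mem_insert] at hq
        rcases hq with rfl | rfl | hq
        · simp only; omega
        · simp only; omega
        · have := hE.lt q hq; omega
      · have : N (insert (w, m) (insert (p m, m) E)) m = {w, p m} := by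
          ext x
          simp only [mem_N, Finset.mem_insert, Prod.mk.injEq, and_true, Finset.mem_singleton]
          constructor
          · rintro (h | h | h)
            · exact Or.inl h
            · exact Or.inr h
            · rw [← mem_N, hNE] at h; simp at h
          · rintro (h | h)
            · exact Or.inl h
            · exact Or.inr (Or.inl h)
        rw [this]
        exact ⟨Finset.card_pair hw2, by simp⟩
      · unfold nt
        have h2 : ((insert (w, m) (insert (p m, m) E)).filter (fun q => q.1 ≠ p q.2)) ⊆
            insert (w, m) (E.filter (fun q => q.1 ≠ p q.2)) := by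
          intro q hq
          simp only [Finset.mem_filter, Finset.mem_insert] at hq ⊢
          rcases hq with ⟨h | h | h, h'⟩
          · exact Or.inl h
          · subst h; simp at h'
          · exact Or.inr ⟨h, h'⟩
        exact (Finset.card_le_card h2).trans (Finset.card_insert_le _ _)
      · obtain ⟨r, hr⟩ := he; omega
    · refine ⟨insert (p m, m) E, 0, ?_, ?_, ?_, ?_, ?_⟩
      · intro q hq; simp [hq]
      · intro q hq
        simp only [Finset.mem_insert] at hq
        rcases hq with rfl | hq
        · simp only; omega
        · have := hE.lt q hq; omega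
      · have : N (insert (p m, m) E) m = {p m} := by
          ext x
          simp only [mem_N, Finset.mem_insert, Prod.mk.injEq, and_true, Finset.mem_singleton]
          constructor
          · rintro (h | h)
            · exact h
            · rw [← mem_N, hNE] at h; simp at h
          · intro h
            exact Or.inl h
        rw [this]
        simp
      · unfold nt
        apply Finset.card_le_card
        intro q hq
        simp only [Finset.mem_filter, Finset.mem_insert] at hq ⊢
        rcases hq with ⟨h | h, h'⟩
        · subst h; simp at h'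
        · exact ⟨h, h'⟩
      · obtain ⟨r, hr⟩ := ho; omega
  have hSt : St p l m E0 := by
    refine ⟨hlt0, ?_, ?_⟩
    · intro j h1 h2; exact hsub (hE.tree j h1 h2)
    · intro x hx _
      exact (hE.deg (by omega) hx).trans (d_mono hsub _)
  obtain ⟨E1, h1, h2, h3, h4, h5⟩ := pinch_iter hp (by omega) ((l-1)/2) E0 hSt (by omega)
  refine ⟨E1, ?_, ?_⟩
  · refine ⟨?_, ?_, ?_⟩
    · intro q hq; have := h1.lt q hq; omega
    · intro j hj1 hj2
      by_cases hj : j = m
      · subst hj
        exact mem_N.1 (h4 hN0.2)
      · exact h1.tree j hj1 (by omega)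
    · -- cut
      have key : ∀ X : Set ℕ, m ∈ X → (∀ x, x < m → x ∉ X) → l ≤ d E1 X := by
        intro X hmX hX
        have := card_N_le_d (E := E1) (v := m) (X := X) hmX (by
          intro x hx
          exact hX x (h1.lt _ (mem_N.1 hx)).1)
        omega
      intro X ⟨a, ha, haX⟩ ⟨b, hb, hbX⟩
      by_cases hA : ∃ a', a' < m ∧ a' ∈ X
      · by_cases hB : ∃ b', b' < m ∧ b' ∉ X
        · exact (hE.cut X hA hB).trans ((d_mono hsub X).trans (h2 X))
        · push Not at hB
          rw [← d_compl]
          apply key
          · have : b = m := by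
              by_contra hbm
              exact hbX (hB b (by omega))
            rw [← this]; exact hbX
          · intro x hx hx'
            exact hx' (hB x hx)
      · push Not at hA
        apply key
        · have : a = m := by
            by_contra ham
            exact hA a (by omega) haX
          rw [← this]; exact haX
        · exact hA
  · have : c0 + (l - 1)/2 ≤ l / 2 := by omega
    omega


/-- two-vertex step for even `l` -/
lemma two_step {p : ℕ → ℕ} {l m : ℕ} (hl : 2 ≤ l) (he : Even l)
    (hp : ∀ j, 1 ≤ j → j ≤ m + 1 → p j < j) (hm : l + 1 ≤ m)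
    {E : Finset (ℕ × ℕ)} (hE : Good p l m E) :
    ∃ E', Good p l (m + 2) E' ∧ nt p E' ≤ nt p E + (l - 1) := by
  classical
  obtain ⟨r, hr⟩ := he
  have hpm : p m < m := hp m (by omega) (by omega)
  have hNE : N E m = ∅ := by
    ext x
    simp only [mem_N, Finset.notMem_empty, iff_false]
    intro h
    have := (hE.lt _ h).2
    simp at this
  -- first vertex
  have hN0 : N (insert (p m, m) E) m = {p m} := by
    ext x
    simp only [mem_N, Finset.mem_insert, Prod.mk.injEq, and_true, Finset.mem_singleton]
    constructor
    · rintro (h | h)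
      · exact h
      · rw [← mem_N, hNE] at h; simp at h
    · intro h
      exact Or.inl h
  have hSt : St p l m (insert (p m, m) E) := by
    refine ⟨?_, ?_, ?_⟩
    · intro q hq
      simp only [Finset.mem_insert] at hq
      rcases hq with rfl | hq
      · simp only; omega
      · have := hE.lt q hq; omega
    · intro j h1 h2; exact Finset.mem_insert_of_mem (hE.tree j h1 h2)
    · intro x hx _
      exact (hE.deg (by omega) hx).trans (d_mono (Finset.subset_insert _ _) _)
  have hnt0 : nt p (insert (p m, m) E) ≤ nt p E := by
    unfold nt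
    apply Finset.card_le_card
    intro q hq
    simp only [Finset.mem_filter, Finset.mem_insert] at hq ⊢
    rcases hq with ⟨h | h, h'⟩
    · subst h; simp at h'
    · exact ⟨h, h'⟩
  obtain ⟨E1, h1, h2, h3, h4, h5⟩ := pinch_iter (fun j a b => hp j a (by omega)) (by omega) (r-1) _ hSt
    (by rw [hN0, Finset.card_singleton]; omega)
  rw [hN0, Finset.card_singleton] at h5
  -- second vertex v2 = m + 1
  have hpm1 : p (m+1) < m + 1 := hp (m+1) (by omega) le_rfl
  have hNE1 : N E1 (m+1) = ∅ := by
    ext x
    simp only [mem_N, Finset.notMem_empty, iff_false]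
    intro h
    have := (h1.lt _ h).2
    simp at this
  obtain ⟨w, hw1, hw2⟩ : ∃ w, w < m ∧ (w = p (m+1) ∨ m = p (m+1)) := by
    by_cases h0 : p (m+1) = m
    · exact ⟨0, by omega, Or.inr h0.symm⟩
    · exact ⟨p (m+1), by omega, Or.inl rfl⟩
  set E2 := insert (w, m+1) (insert (m, m+1) E1) with hE2
  have hsub : E1 ⊆ E2 := by
    intro q hq; simp [hE2, hq]
  have hN2 : N E2 (m+1) = {w, m} := by
    ext x
    simp only [hE2, mem_N, Finset.mem_insert, Prod.mk.injEq, and_true, Finset.mem_singleton]
    constructor
    · rintro (h | h | h)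
      · exact Or.inl h
      · exact Or.inr h
      · rw [← mem_N, hNE1] at h; simp at h
    · rintro (h | h)
      · exact Or.inl h
      · exact Or.inr (Or.inl h)
  have hnt2 : nt p E2 ≤ nt p E1 + 1 := by
    unfold nt
    rcases hw2 with hw2 | hw2
    · have hh : (E2.filter (fun q => q.1 ≠ p q.2)) ⊆
            insert (m, m+1) (E1.filter (fun q => q.1 ≠ p q.2)) := by
        intro q hq
        simp only [hE2, Finset.mem_filter, Finset.mem_insert] at hq ⊢
        rcases hq with ⟨h | h | h, h'⟩
        · subst h; exact absurd hw2 h'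
        · exact Or.inl h
        · exact Or.inr ⟨h, h'⟩
      exact (Finset.card_le_card hh).trans (Finset.card_insert_le _ _)
    · have hh : (E2.filter (fun q => q.1 ≠ p q.2)) ⊆
            insert (w, m+1) (E1.filter (fun q => q.1 ≠ p q.2)) := by
        intro q hq
        simp only [hE2, Finset.mem_filter, Finset.mem_insert] at hq ⊢
        rcases hq with ⟨h | h | h, h'⟩
        · exact Or.inl h
        · subst h; exact absurd hw2 h'
        · exact Or.inr ⟨h, h'⟩
      exact (Finset.card_le_card hh).trans (Finset.card_insert_le _ _)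
  have hdm : l ≤ d E2 {m} := by
    -- neighbours below plus the edge to m+1
    unfold d
    have hss : insert (m, m+1) ((N E1 m).image (fun x => (x, m))) ⊆
        E2.filter (fun q => cr {m} q) := by
      intro q hq
      rw [Finset.mem_insert] at hq
      rcases hq with rfl | hq
      · simp [hE2, cr]
      · rw [Finset.mem_image] at hq
        obtain ⟨x, hx, rfl⟩ := hq
        have hx' := mem_N.1 hx
        have := h1.lt _ hx'
        simp only at this
        rw [Finset.mem_filter]
        refine ⟨hsub hx', ?_⟩
        unfold cr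
        simp only [Set.mem_singleton_iff]
        intro h
        have := h.2 trivial
        omega
    have := Finset.card_le_card hss
    rw [Finset.card_insert_of_notMem, Finset.card_image_of_injective] at this
    · omega
    · intro a b h; simpa using h
    · simp
  have hSt2 : St p l (m+1) E2 := by
    refine ⟨?_, ?_, ?_⟩
    · intro q hq
      simp only [hE2, Finset.mem_insert] at hq
      rcases hq with rfl | rfl | hq
      · simp only; omega
      · simp only; omega
      · have := h1.lt q hq; omega
    · intro j hj1 hj2
      by_cases hj : j = m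
      · subst hj
        apply hsub
        apply mem_N.1
        apply h4
        rw [hN0]; simp
      · exact hsub (h1.tree j hj1 (by omega))
    · intro x hx hxN
      rw [hN2] at hxN
      simp only [Finset.mem_insert, Finset.mem_singleton, not_or] at hxN
      have hxm : x < m := by omega
      exact (hE.deg (by omega) hxm).trans ((d_mono (Finset.subset_insert _ _) _).trans
        ((h2 _).trans (d_mono hsub _)))
  obtain ⟨E3, g1, g2, g3, g4, g5⟩ := pinch_iter (fun j a b => hp j a (by omega)) (by omega) (r-1) _ hSt2
    (by rw [hN2, Finset.card_pair (by omega)]; omega)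
  rw [hN2, Finset.card_pair (by omega)] at g5
  refine ⟨E3, ?_, by omega⟩
  refine ⟨?_, ?_, ?_⟩
  · intro q hq; have := g1.lt q hq; omega
  · intro j hj1 hj2
    by_cases hj : j = m + 1
    · subst hj
      apply mem_N.1
      apply g4
      rw [hN2]
      rcases hw2 with h | h <;> rw [← h] <;> simp
    · exact g1.tree j hj1 (by omega)
  · have key : ∀ X : Set ℕ, (∀ x, x < m → x ∉ X) → (m ∈ X ∨ m + 1 ∈ X) → l ≤ d E3 X := by
      intro X hX hmX
      by_cases hm1 : m ∈ X
      · by_cases hm2 : m + 1 ∈ X
        · -- both
          have : l ≤ d E2 X := by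
            unfold d
            have hss : insert (w, m+1) ((N E1 m).image (fun x => (x, m))) ⊆
                E2.filter (fun q => cr X q) := by
              intro q hq
              rw [Finset.mem_insert] at hq
              rcases hq with rfl | hq
              · rw [Finset.mem_filter]
                refine ⟨by simp [hE2], ?_⟩
                unfold cr
                simp only
                have := hX w hw1
                tauto
              · rw [Finset.mem_image] at hq
                obtain ⟨x, hx, rfl⟩ := hq
                have hx' := mem_N.1 hx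
                have := h1.lt _ hx'
                simp only at this
                rw [Finset.mem_filter]
                refine ⟨hsub hx', ?_⟩
                unfold cr
                simp only
                have := hX x this.1
                tauto
            have := Finset.card_le_card hss
            rw [Finset.card_insert_of_notMem, Finset.card_image_of_injective] at this
            · omega
            · intro a b h; simpa using h
            · simp
          exact this.trans (g2 X)
        · -- only m
          have : l ≤ d E2 X := by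
            unfold d
            have hss : insert (m, m+1) ((N E1 m).image (fun x => (x, m))) ⊆
                E2.filter (fun q => cr X q) := by
              intro q hq
              rw [Finset.mem_insert] at hq
              rcases hq with rfl | hq
              · rw [Finset.mem_filter]
                refine ⟨by simp [hE2], ?_⟩
                unfold cr
                simp only
                tauto
              · rw [Finset.mem_image] at hq
                obtain ⟨x, hx, rfl⟩ := hq
                have hx' := mem_N.1 hx
                have := h1.lt _ hx'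
                simp only at this
                rw [Finset.mem_filter]
                refine ⟨hsub hx', ?_⟩
                unfold cr
                simp only
                have := hX x this.1
                tauto
            have := Finset.card_le_card hss
            rw [Finset.card_insert_of_notMem, Finset.card_image_of_injective] at this
            · omega
            · intro a b h; simpa using h
            · simp
          exact this.trans (g2 X)
      · have hm2 : m + 1 ∈ X := by tauto
        have := card_N_le_d (E := E3) (v := m+1) (X := X) hm2 (by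
          intro x hx
          have h := (g1.lt _ (mem_N.1 hx)).1
          simp only at h
          by_cases hxm : x = m
          · subst hxm; exact hm1
          · exact hX x (by omega))
        omega
    intro X ⟨a, ha, haX⟩ ⟨b, hb, hbX⟩
    by_cases hA : ∃ a', a' < m ∧ a' ∈ X
    · by_cases hB : ∃ b', b' < m ∧ b' ∉ X
      · exact (hE.cut X hA hB).trans ((d_mono (Finset.subset_insert _ _) _).trans
          ((h2 _).trans ((d_mono hsub _).trans (g2 X))))
      · push Not at hB
        rw [← d_compl]
        apply key
        · intro x hx hx'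
          exact hx' (hB x hx)
        · by_cases hbm : b = m
          · left; rw [← hbm]; exact hbX
          · right
            have : b = m + 1 := by
              by_contra hbm'
              exact hbX (hB b (by omega))
            rw [← this]; exact hbX
    · push Not at hA
      apply key
      · exact hA
      · by_cases ham : a = m
        · left; rw [← ham]; exact haX
        · right
          have : a = m + 1 := by
            by_contra ham'
            exact hA a (by omega) haX
          rw [← this]; exact haX

/-- complete graph on `[0,m)` -/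
def Kc (m : ℕ) : Finset (ℕ × ℕ) := (range m ×ˢ range m).filter (fun q => q.1 < q.2)

lemma mem_Kc {m : ℕ} {q : ℕ × ℕ} : q ∈ Kc m ↔ q.1 < q.2 ∧ q.2 < m := by
  unfold Kc
  simp only [Finset.mem_filter, Finset.mem_product, Finset.mem_range]
  omega

lemma nt_Kc {p : ℕ → ℕ} (m : ℕ) (hp : ∀ j, 1 ≤ j → j ≤ m → p j < j) :
    2 * nt p (Kc (m + 1)) ≤ m * (m - 1) := by
  classical
  induction m with
  | zero =>
    unfold nt
    have : (Kc (0+1)) = ∅ := by
      ext q; rw [mem_Kc]; simp; omega
    rw [this]; simp
  | succ m ih =>
    have ih' := ih (fun j a b => hp j a (by omega))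
    have hss : ((Kc (m + 1 + 1)).filter (fun q => q.1 ≠ p q.2)) ⊆
        ((Kc (m + 1)).filter (fun q => q.1 ≠ p q.2)) ∪ 
        (((range (m+1)).erase (p (m+1))).image (fun x => (x, m+1))) := by
      intro q hq
      rw [Finset.mem_filter, mem_Kc] at hq
      rw [Finset.mem_union, Finset.mem_filter, mem_Kc, Finset.mem_image]
      obtain ⟨⟨h1, h2⟩, h3⟩ := hq
      by_cases hqm : q.2 = m + 1
      · right
        refine ⟨q.1, ?_, ?_⟩
        · rw [Finset.mem_erase, Finset.mem_range]
          rw [hqm] at h3
          exact ⟨h3, by omega⟩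
        · rw [← hqm]
      · left; exact ⟨⟨h1, by omega⟩, h3⟩
    have h1 := Finset.card_le_card hss
    have h2 := Finset.card_union_le ((Kc (m + 1)).filter (fun q => q.1 ≠ p q.2))
        (((range (m+1)).erase (p (m+1))).image (fun x => (x, m+1)))
    have h3 : (((range (m+1)).erase (p (m+1))).image (fun x => (x, m+1))).card ≤ m := by
      refine Finset.card_image_le.trans ?_
      rw [Finset.card_erase_of_mem]
      · simp
      · rw [Finset.mem_range]; exact hp (m+1) (by omega) le_rfl
    have h4 : nt p (Kc (m+1+1)) ≤ nt p (Kc (m+1)) + m := by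
      unfold nt; omega
    have h5 : (m + 1) * (m + 1 - 1) = m * (m - 1) + 2 * m := by
      cases m with
      | zero => rfl
      | succ k => simp only [Nat.add_sub_cancel]; ring
    omega

lemma good_Kc {p : ℕ → ℕ} (l : ℕ) (hp : ∀ j, 1 ≤ j → j ≤ l → p j < j) :
    Good p l (l + 1) (Kc (l + 1)) := by
  classical
  refine ⟨?_, ?_, ?_⟩
  · intro q hq; exact mem_Kc.1 hq
  · intro j h1 h2
    rw [mem_Kc]
    exact ⟨hp j h1 (by omega), h2⟩
  · intro X ⟨a, ha, haX⟩ ⟨b, hb, hbX⟩
    unfold d
    have : ((range (l+1)).erase a).card ≤ ((Kc (l+1)).filter (fun q => cr X q)).card := by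
      apply Finset.card_le_card_of_injOn (fun c => if c ∈ X then (min c b, max c b) else (min a c, max a c))
      · intro c hc
        rw [Finset.mem_coe, Finset.mem_erase, Finset.mem_range] at hc
        rw [Finset.mem_coe, Finset.mem_filter, mem_Kc]
        simp only
        split_ifs with hcX
        · have hcb : c ≠ b := by rintro rfl; exact hbX hcX
          rcases lt_or_gt_of_ne hcb with h | h
          · rw [min_eq_left h.le, max_eq_right h.le]
            exact ⟨⟨h, hb⟩, by unfold cr; simp only; tauto⟩
          · rw [min_eq_right h.le, max_eq_left h.le]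
            exact ⟨⟨h, hc.2⟩, by unfold cr; simp only; tauto⟩
        · have hca : a ≠ c := hc.1.symm
          rcases lt_or_gt_of_ne hca with h | h
          · rw [min_eq_left h.le, max_eq_right h.le]
            exact ⟨⟨h, hc.2⟩, by unfold cr; simp only; tauto⟩
          · rw [min_eq_right h.le, max_eq_left h.le]
            exact ⟨⟨h, ha⟩, by unfold cr; simp only; tauto⟩
      · intro c hc c' hc' heq
        rw [Finset.mem_coe, Finset.mem_erase, Finset.mem_range] at hc hc'
        simp only at heq
        split_ifs at heq with h1 h2 h2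
        · rw [Prod.mk.injEq] at heq
          have := heq.1; have := heq.2
          omega
        · rw [Prod.mk.injEq] at heq
          have e1 := heq.1; have e2 := heq.2
          have : c = a ∨ c = c' := by omega
          rcases this with h | h
          · exact absurd h hc.1
          · exact h
        · rw [Prod.mk.injEq] at heq
          have e1 := heq.1; have e2 := heq.2
          have : c' = a ∨ c' = c := by omega
          rcases this with h | h
          · exact absurd h hc'.1
          · exact h.symm
        · rw [Prod.mk.injEq] at heq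
          have := heq.1; have := heq.2
          omega
    rw [Finset.card_erase_of_mem (Finset.mem_range.2 ha), Finset.card_range] at this
    simpa using this

/-- main induction -/
lemma main_ind {p : ℕ → ℕ} {l : ℕ} (hl : 2 ≤ l) (m : ℕ) (hm : l + 1 ≤ m)
    (hp : ∀ j, 1 ≤ j → j < m → p j < j) :
    ∃ E, Good p l m E ∧ nt p E ≤ ((m - 1) * (l - 1) + 1) / 2 := by
  have base : ∃ E, Good p l (l + 1) E ∧ 2 * nt p E ≤ l * (l - 1) :=
    ⟨Kc (l + 1), good_Kc l (fun j a b => hp j a (by omega)), nt_Kc l (fun j a b => hp j a (by omega))⟩
  rcases Nat.even_or_odd l with he | ho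
  · -- even l : first the stages `l + 1 + 2 t`
    have stage : ∀ t, l + 1 + 2 * t ≤ m → ∃ E, Good p l (l + 1 + 2 * t) E ∧
        2 * nt p E ≤ (l + 2 * t) * (l - 1) := by
      intro t
      induction t with
      | zero => intro _; simpa using base
      | succ t ih =>
        intro ht
        obtain ⟨E, hE, hn⟩ := ih (by omega)
        obtain ⟨E', hE', hn'⟩ := two_step hl he (fun j a b => hp j a (by omega)) (by omega) hE
        refine ⟨E', ?_, ?_⟩
        · have : l + 1 + 2 * (t + 1) = l + 1 + 2 * t + 2 := by ring
          rw [this]; exact hE'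
        · have : (l + 2 * (t + 1)) * (l - 1) = (l + 2 * t) * (l - 1) + 2 * (l - 1) := by ring
          omega
    obtain ⟨t, ht⟩ : ∃ t, m = l + 1 + 2 * t ∨ m = l + 1 + 2 * t + 1 := ⟨(m - (l + 1)) / 2, by omega⟩
    rcases ht with ht | ht
    · obtain ⟨E, hE, hn⟩ := stage t (by omega)
      refine ⟨E, by rw [ht]; exact hE, ?_⟩
      have : m - 1 = l + 2 * t := by omega
      rw [this]; omega
    · obtain ⟨E, hE, hn⟩ := stage t (by omega)
      obtain ⟨E', hE', hn'⟩ := one_step hl (fun j a b => hp j a (by omega)) (by omega) hE
      refine ⟨E', by rw [ht]; exact hE', ?_⟩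
      have h1 : m - 1 = l + 2 * t + 1 := by omega
      have h2 : (m - 1) * (l - 1) = (l + 2 * t) * (l - 1) + (l - 1) := by rw [h1]; ring
      rw [h2]
      obtain ⟨r, hr⟩ := he
      have h3 : Even ((l + 2 * t) * (l - 1)) := by
        apply Even.mul_right
        exact ⟨r + t, by omega⟩
      obtain ⟨s, hs⟩ := h3
      omega
  · have stage : ∀ t, l + 1 + t ≤ m → ∃ E, Good p l (l + 1 + t) E ∧
        2 * nt p E ≤ (l + t) * (l - 1) := by
      intro t
      induction t with
      | zero => intro _; simpa using base
      | succ t ih =>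
        intro ht
        obtain ⟨E, hE, hn⟩ := ih (by omega)
        obtain ⟨E', hE', hn'⟩ := one_step hl (fun j a b => hp j a (by omega)) (by omega) hE
        refine ⟨E', ?_, ?_⟩
        · exact hE'
        · have : (l + (t + 1)) * (l - 1) = (l + t) * (l - 1) + (l - 1) := by ring
          obtain ⟨r, hr⟩ := ho
          omega
    obtain ⟨t, ht⟩ : ∃ t, m = l + 1 + t := ⟨m - (l + 1), by omega⟩
    obtain ⟨E, hE, hn⟩ := stage t (by omega)
    refine ⟨E, by rw [ht]; exact hE, ?_⟩
    have : m - 1 = l + t := by omega
    rw [this]; omega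


/-! ### Graphs -/

/-- The edge-connectivity `λ(G)`: the least number of edges whose deletion leaves a disconnected
graph (and `0` if there is no such number, i.e. for the one-vertex graph). -/
noncomputable def lam {V : Type*} (G : SimpleGraph V) : ℕ :=
  sInf {m | ∃ F : Finset (Sym2 V), (F : Set (Sym2 V)) ⊆ G.edgeSet ∧ F.card = m ∧
    ¬ (G.deleteEdges (F : Set (Sym2 V))).Connected}

/-- Every `k`-edge-connected graph of order `n` becomes `l`-edge-connected after adding at most
`e` suitable edges. -/
def Works (n k l e : ℕ) : Prop :=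
  ∀ G : SimpleGraph (Fin n), k ≤ lam G →
    ∃ H : SimpleGraph (Fin n), G ≤ H ∧ l ≤ lam H ∧ (H.edgeSet \ G.edgeSet).ncard ≤ e

lemma le_lam_iff {V : Type*} [Fintype V] [Nontrivial V] (G : SimpleGraph V) (k : ℕ) :
    k ≤ lam G ↔ ∀ F : Finset (Sym2 V), F.card < k →
      (G.deleteEdges (F : Set (Sym2 V))).Connected := by
  classical
  constructor
  · intro h F hF
    by_contra hcon
    have hmem : (F.filter (fun e => e ∈ G.edgeSet)).card ∈ {m | ∃ F : Finset (Sym2 V),
        (F : Set (Sym2 V)) ⊆ G.edgeSet ∧ F.card = m ∧
        ¬ (G.deleteEdges (F : Set (Sym2 V))).Connected} := by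
      refine ⟨F.filter (fun e => e ∈ G.edgeSet), ?_, rfl, ?_⟩
      · intro e he
        simp only [Finset.coe_filter, Set.mem_ofPred_eq] at he
        exact he.2
      · have : G.deleteEdges ((F.filter (fun e => e ∈ G.edgeSet) : Finset (Sym2 V)) : Set (Sym2 V))
            = G.deleteEdges (F : Set (Sym2 V)) := by
          ext a b
          simp only [SimpleGraph.deleteEdges_adj, Finset.coe_filter, Set.mem_ofPred_eq,
            SimpleGraph.mem_edgeSet, Finset.mem_coe]
          tauto
        rw [this]; exact hcon
    have h1 := Nat.sInf_le hmem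
    have h2 := Finset.card_filter_le F (fun e => e ∈ G.edgeSet)
    unfold lam at h
    omega
  · intro h
    by_contra hlt
    push Not at hlt
    have hne : {m | ∃ F : Finset (Sym2 V),
        (F : Set (Sym2 V)) ⊆ G.edgeSet ∧ F.card = m ∧
        ¬ (G.deleteEdges (F : Set (Sym2 V))).Connected}.Nonempty := by
      refine ⟨_, G.edgeFinset, by simp, rfl, ?_⟩
      intro hc
      obtain ⟨a, b, hab⟩ := exists_pair_ne V
      have : G.deleteEdges (G.edgeFinset : Set (Sym2 V)) = ⊥ := by
        ext a b
        simp
      rw [this] at hc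
      have := hc.preconnected a b
      rw [SimpleGraph.reachable_bot] at this
      exact hab this
    obtain ⟨F, _, h2, h3⟩ := Nat.sInf_mem hne
    exact h3 (h F (by rw [h2]; exact hlt))

lemma lam_le_degree {V : Type*} [Fintype V] [Nontrivial V] (H : SimpleGraph V)
    [DecidableRel H.Adj] (l : ℕ) (h : l ≤ lam H) (v : V) : l ≤ H.degree v := by
  classical
  rw [le_lam_iff] at h
  by_contra hlt
  push Not at hlt
  have hc := h ((H.neighborFinset v).image (fun w => s(v, w)))
    (lt_of_le_of_lt Finset.card_image_le (by rwa [SimpleGraph.card_neighborFinset_eq_degree]))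
  obtain ⟨w, hw⟩ := exists_ne v
  obtain ⟨p⟩ := hc.preconnected v w
  cases p with
  | nil => exact hw rfl
  | cons hadj _ =>
    rw [SimpleGraph.deleteEdges_adj] at hadj
    apply hadj.2
    simp only [Finset.coe_image, Set.mem_image, Finset.mem_coe, SimpleGraph.mem_neighborFinset]
    exact ⟨_, hadj.1, rfl⟩

/-- a good ordering of the vertices of a connected graph -/
lemma exists_order {n : ℕ} (hn : 0 < n) (G : SimpleGraph (Fin n)) (hG : G.Connected) :
    ∃ σ : Equiv.Perm (Fin n), ∀ i : Fin n, 0 < i.1 → ∃ j : Fin n, j < i ∧ G.Adj (σ i) (σ j) := by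
  classical
  let r : Fin n := ⟨0, hn⟩
  let f : Fin n → ℕ := fun v => G.dist r v
  have hmono := Tuple.monotone_sort f
  refine ⟨Tuple.sort f, ?_⟩
  intro i hi
  have hfi : 0 < f (Tuple.sort f i) := by
    by_contra h0
    have h0' : f (Tuple.sort f i) = 0 := by omega
    have h1 : f (Tuple.sort f ⟨0, hn⟩) ≤ f (Tuple.sort f i) := hmono (Fin.mk_le_of_le_val (by omega))
    have h2 : f (Tuple.sort f ⟨0, hn⟩) = 0 := by omega
    have e1 : r = Tuple.sort f i := (hG.dist_eq_zero_iff).1 h0'
    have e2 : r = Tuple.sort f ⟨0, hn⟩ := (hG.dist_eq_zero_iff).1 h2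
    have := (Tuple.sort f).injective (e1.symm.trans e2)
    rw [this] at hi
    simp at hi
  -- a neighbour closer to the root
  obtain ⟨w, hw1, hw2⟩ : ∃ w, G.Adj (Tuple.sort f i) w ∧ f w < f (Tuple.sort f i) := by
    have gen : ∀ z : Fin n, 0 < G.dist r z → ∃ w, G.Adj z w ∧ G.dist r w < G.dist r z := by
      intro z hz
      obtain ⟨p, hp⟩ := hG.exists_walk_length_eq_dist z r
      rw [SimpleGraph.dist_comm] at hp
      revert hp
      generalize r = r' at *
      intro hp
      cases p with
      | nil => simp at hz
      | @cons _ w _ hadj q =>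
        refine ⟨w, hadj, ?_⟩
        rw [SimpleGraph.Walk.length_cons] at hp
        have h1 := SimpleGraph.dist_le q
        rw [SimpleGraph.dist_comm (u := r') (v := w)]
        omega
    exact gen _ hfi
  refine ⟨(Tuple.sort f).symm w, ?_, ?_⟩
  · by_contra hle
    push Not at hle
    have := hmono hle
    simp only [Function.comp, Equiv.apply_symm_apply] at this
    omega
  · rw [Equiv.apply_symm_apply]; exact hw1

lemma upper {n l : ℕ} (hl : 2 ≤ l) (hln : l < n) :
    Works n 1 l (((n - 1) * (l - 1) + 1) / 2) := by
  classical
  intro G hG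
  have : Nontrivial (Fin n) := Fin.nontrivial_iff_two_le.2 (by omega)
  have hconn : G.Connected := by
    have := (le_lam_iff G 1).1 hG ∅ (by simp)
    simpa using this
  have hn : 0 < n := by omega
  obtain ⟨σ, hσ⟩ := exists_order hn G hconn
  choose! par hpar using hσ
  let p : ℕ → ℕ := fun j => if h : j < n then (par ⟨j, h⟩).1 else 0
  have hp : ∀ j, 1 ≤ j → j < n → p j < j := by
    intro j h1 h2
    simp only [p, h2, dif_pos]
    exact (hpar ⟨j, h2⟩ h1).1
  obtain ⟨E, hE, hnt⟩ := main_ind (p := p) hl n (by omega) hp
  let g : ℕ → Fin n := fun i => if h : i < n then σ ⟨i, h⟩ else σ ⟨0, hn⟩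
  have hg : ∀ i, ∀ h : i < n, g i = σ ⟨i, h⟩ := by
    intro i h; simp only [g, h, dif_pos]
  have hginj : ∀ i j, i < n → j < n → g i = g j → i = j := by
    intro i j hi hj h
    rw [hg i hi, hg j hj] at h
    have := σ.injective h
    simpa using this
  let S : Set (Sym2 (Fin n)) := ((E.image (fun q => s(g q.1, g q.2)) : Finset (Sym2 (Fin n))) : Set _)
  refine ⟨G ⊔ SimpleGraph.fromEdgeSet S, le_sup_left, ?_, ?_⟩
  · rw [le_lam_iff]
    intro F hF
    by_contra hcon
    have hnp : ¬ ((G ⊔ SimpleGraph.fromEdgeSet S).deleteEdges (F : Set (Sym2 (Fin n)))).Preconnected := by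
      intro h
      exact hcon ⟨h⟩
    unfold SimpleGraph.Preconnected at hnp
    push Not at hnp
    obtain ⟨u, v, huv⟩ := hnp
    set K := (G ⊔ SimpleGraph.fromEdgeSet S).deleteEdges (F : Set (Sym2 (Fin n))) with hK
    let X : Set ℕ := {i | K.Reachable u (g i)}
    have hsurj : ∀ w : Fin n, ∃ i, i < n ∧ g i = w := by
      intro w
      refine ⟨(σ.symm w).1, (σ.symm w).2, ?_⟩
      rw [hg _ (σ.symm w).2]
      simp
    obtain ⟨a, ha, hau⟩ := hsurj u
    obtain ⟨b, hb, hbv⟩ := hsurj v
    have hcut := hE.cut X ⟨a, ha, by
      change K.Reachable u (g a); rw [hau]⟩ ⟨b, hb, by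
      change ¬ K.Reachable u (g b); rw [hbv]; exact huv⟩
    have hle : d E X ≤ F.card := by
      unfold d
      apply Finset.card_le_card_of_injOn (fun q => s(g q.1, g q.2))
      · intro q hq
        rw [Finset.mem_coe, Finset.mem_filter] at hq
        obtain ⟨hqE, hqc⟩ := hq
        by_contra hqF
        rw [Finset.mem_coe] at hqF
        have hlt := hE.lt q hqE
        have hadj : K.Adj (g q.1) (g q.2) := by
          rw [hK, SimpleGraph.deleteEdges_adj]
          refine ⟨?_, by simpa using hqF⟩
          rw [SimpleGraph.sup_adj]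
          right
          rw [SimpleGraph.fromEdgeSet_adj]
          refine ⟨?_, ?_⟩
          · simp only [S, Finset.coe_image, Set.mem_image, Finset.mem_coe]
            exact ⟨q, hqE, rfl⟩
          · intro h
            have := hginj _ _ (by omega) (by omega) h
            omega
        apply hqc
        constructor
        · intro h
          exact SimpleGraph.Reachable.trans h hadj.reachable
        · intro h
          exact SimpleGraph.Reachable.trans h hadj.symm.reachable
      · intro q hq q' hq' heq
        rw [Finset.mem_coe, Finset.mem_filter] at hq hq'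
        have hlt := hE.lt q hq.1
        have hlt' := hE.lt q' hq'.1
        simp only [Sym2.eq_iff] at heq
        rcases heq with ⟨h1, h2⟩ | ⟨h1, h2⟩
        · have e1 := hginj _ _ (by omega) (by omega) h1
          have e2 := hginj _ _ (by omega) (by omega) h2
          exact Prod.ext e1 e2
        · have e1 := hginj _ _ (by omega) (by omega) h1
          have e2 := hginj _ _ (by omega) (by omega) h2
          omega
    omega
  · have hss : (G ⊔ SimpleGraph.fromEdgeSet S).edgeSet \ G.edgeSet ⊆
        (((E.filter (fun q => q.1 ≠ p q.2)).image (fun q => s(g q.1, g q.2)) :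
          Finset (Sym2 (Fin n))) : Set (Sym2 (Fin n))) := by
      intro e he
      rw [SimpleGraph.edgeSet_sup, SimpleGraph.edgeSet_fromEdgeSet] at he
      obtain ⟨he1, he2⟩ := he
      have he3 : e ∈ S := by
        rcases he1 with h | h
        · exact absurd h he2
        · exact h.1
      simp only [S, Finset.coe_image, Set.mem_image, Finset.mem_coe] at he3
      obtain ⟨q, hq, rfl⟩ := he3
      rw [Finset.mem_coe, Finset.mem_image]
      refine ⟨q, ?_, rfl⟩
      rw [Finset.mem_filter]
      refine ⟨hq, ?_⟩
      intro hqp
      apply he2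
      have hlt := hE.lt q hq
      rw [SimpleGraph.mem_edgeSet]
      have h1 := (hpar ⟨q.2, hlt.2⟩ (by simp only; omega)).2
      have h2 : g q.1 = σ (par ⟨q.2, hlt.2⟩) := by
        rw [hg q.1 (by omega)]
        congr 1
        apply Fin.ext
        have h3 : p q.2 = (par ⟨q.2, hlt.2⟩).1 := by
          simp only [p, hlt.2, dif_pos]
        exact hqp.trans h3
      rw [h2, hg q.2 hlt.2]
      exact h1.symm
    have h1 := Set.ncard_le_ncard hss (Finset.finite_toSet _)
    rw [Set.ncard_coe_finset] at h1
    have h2 : ((E.filter (fun q => q.1 ≠ p q.2)).image (fun q => s(g q.1, g q.2))).card ≤ nt p E := by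
      unfold nt
      exact Finset.card_image_le
    omega

/-- the star -/
def star (n : ℕ) (hn : 0 < n) : SimpleGraph (Fin n) where
  Adj a b := a ≠ b ∧ (a = ⟨0, hn⟩ ∨ b = ⟨0, hn⟩)
  symm := ⟨fun _ _ h => ⟨h.1.symm, h.2.symm⟩⟩
  loopless := ⟨fun _ h => h.1 rfl⟩

lemma star_connected (n : ℕ) (hn : 0 < n) : (star n hn).Connected := by
  have h0 : ∀ v, (star n hn).Reachable ⟨0, hn⟩ v := by
    intro v
    by_cases hv : v = ⟨0, hn⟩
    · rw [hv]
    · apply SimpleGraph.Adj.reachable
      exact ⟨fun h => hv h.symm, Or.inl rfl⟩
  have : Nonempty (Fin n) := ⟨⟨0, hn⟩⟩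
  exact ⟨fun u v => (h0 u).symm.trans (h0 v)⟩

lemma lower {n l e : ℕ} (hl : 2 ≤ l) (hln : l < n) (h : Works n 1 l e) :
    ((n - 1) * (l - 1) + 1) / 2 ≤ e := by
  classical
  have hn : 0 < n := by omega
  have : Nontrivial (Fin n) := Fin.nontrivial_iff_two_le.2 (by omega)
  have hG : 1 ≤ lam (star n hn) := by
    rw [le_lam_iff]
    intro F hF
    have : F = ∅ := by rw [← Finset.card_eq_zero]; omega
    rw [this]
    simpa using star_connected n hn
  obtain ⟨H, hGH, hlam, hcard⟩ := h (star n hn) hG
  rw [← SimpleGraph.edgeSet_sdiff] at hcard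
  have hdeg : ∀ v : Fin n, v ≠ ⟨0, hn⟩ → l - 1 ≤ (H \ star n hn).degree v := by
    intro v hv
    have h1 := lam_le_degree H l hlam v
    have h2 : H.neighborFinset v ⊆ insert ⟨0, hn⟩ ((H \ star n hn).neighborFinset v) := by
      intro w hw
      rw [SimpleGraph.mem_neighborFinset] at hw
      rw [Finset.mem_insert, SimpleGraph.mem_neighborFinset, SimpleGraph.sdiff_adj]
      by_cases hw0 : w = ⟨0, hn⟩
      · exact Or.inl hw0
      · right
        refine ⟨hw, ?_⟩
        intro hs
        rcases hs.2 with h | h
        · exact hv h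
        · exact hw0 h
    have h3 := (Finset.card_le_card h2).trans (Finset.card_insert_le _ _)
    rw [SimpleGraph.card_neighborFinset_eq_degree, SimpleGraph.card_neighborFinset_eq_degree] at h3
    omega
  have hsum := SimpleGraph.sum_degrees_eq_twice_card_edges (H \ star n hn)
  have hlow : (n - 1) * (l - 1) ≤ ∑ v, (H \ star n hn).degree v := by
    calc (n - 1) * (l - 1) = ∑ v ∈ (Finset.univ.erase (⟨0, hn⟩ : Fin n)), (l - 1) := by
          rw [Finset.sum_const, Finset.card_erase_of_mem (Finset.mem_univ _), Finset.card_univ,
            Fintype.card_fin, smul_eq_mul]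
      _ ≤ ∑ v ∈ (Finset.univ.erase (⟨0, hn⟩ : Fin n)), (H \ star n hn).degree v := by
          apply Finset.sum_le_sum
          intro v hv
          exact hdeg v (Finset.ne_of_mem_erase hv)
      _ ≤ ∑ v, (H \ star n hn).degree v :=
          Finset.sum_le_sum_of_subset (Finset.erase_subset _ _)
  rw [← Set.ncard_coe_finset, SimpleGraph.coe_edgeFinset] at hsum
  omega

/-- **Row `k = 1` of Q2.**  For all `2 ≤ l < n`, the least `e` such that every connected graph of
order `n` becomes `l`-edge-connected after adding at most `e` edges is `⌈(n-1)(l-1)/2⌉`. -/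
theorem result (n l : ℕ) (hl : 2 ≤ l) (hln : l < n) :
    IsLeast {e | Works n 1 l e} (((n - 1) * (l - 1) + 1) / 2) :=
  ⟨upper hl hln, fun _ he => lower hl hln he⟩

end Pool.Agent.Results.MP_30a809_co.RowOne
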